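import Pool.Agent.W120.WM.Defs2
import Pool.Agent.H370R2.DirGood

/-! Part WM2-STIR of project WM (helper120). -/

set_option autoImplicit false

open MeasureTheory Filter Topology Set Complex

namespace Pool.Agent.W831.WM

open Pool.Agent.W120.WM

lemma hasDerivAt_log_norm {f : ℝ → ℂ} {f' : ℂ} {x : ℝ} (h : HasDerivAt f f' x)
    (h0 : f x ≠ 0) : HasDerivAt (fun t => Real.log ‖f t‖) (f' / f x).re x := by
  have h1 := (h.norm_sq).log (by positivity : ‖f x‖ ^ 2 ≠ 0)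
  have h2 : (fun t => Real.log ‖f t‖) = fun t => (1 / 2) * Real.log (‖f t‖ ^ 2) := by
    funext t
    rw [Real.log_pow]
    push_cast
    ring
  rw [h2]
  have h3 : ‖f x‖ ^ 2 ≠ 0 := by positivity
  have h4 : (f' / f x).re = (1 / 2) * (2 * inner ℝ (f x) f' / ‖f x‖ ^ 2) := by
    rw [Complex.inner, Complex.div_re, ← Complex.normSq_eq_norm_sq]
    rw [← Complex.normSq_eq_norm_sq] at h3
    simp only [Complex.mul_re, Complex.conj_re, Complex.conj_im]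
    field_simp
    ring
  rw [h4]
  exact h1.const_mul (1 / 2)

lemma diff_GR {z : ℂ} (hz : 0 < z.re) : DifferentiableAt ℂ Gammaℝ z := by
  have h1 : DifferentiableAt ℂ (fun s => (Gammaℝ s)⁻¹) z := differentiable_Gammaℝ_inv z
  have h2 := h1.inv (inv_ne_zero (Gammaℝ_ne_zero_of_re_pos hz))
  have h3 : Gammaℝ = (fun s => (Gammaℝ s)⁻¹)⁻¹ := by
    funext s
    simp
  rw [h3]
  exact h2

lemma quot_bound : ∃ C : ℝ, 0 ≤ C ∧ ∀ y : ℝ, 1 ≤ |y| →
    |Real.log ‖Gammaℝ (⟨3 / 2, y⟩ : ℂ)‖ - Real.log ‖Gammaℝ (⟨1 / 2, y⟩ : ℂ)‖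
      - 1 / 2 * Real.log (|y|)| ≤ C := by
  obtain ⟨C, hC0, hC⟩ := H370.DL.logDeriv_Gammaℝ_bound
  refine ⟨C, hC0, fun y hy => ?_⟩
  have key : ∀ x : ℝ, 0 < x → HasDerivAt (fun t : ℝ => Real.log ‖Gammaℝ (⟨t, y⟩ : ℂ)‖)
      (logDeriv Gammaℝ (⟨x, y⟩ : ℂ)).re x := by
    intro x hx
    have h1 : HasDerivAt (fun t : ℝ => (⟨t, y⟩ : ℂ)) 1 x := by
      have h2 : HasDerivAt (fun t : ℝ => (t : ℂ) + y * I) 1 x :=
        (Complex.ofRealCLM.hasDerivAt (x := x)).add_const _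
      have h3 : (fun t : ℝ => (⟨t, y⟩ : ℂ)) = fun t : ℝ => (t : ℂ) + y * I := by
        funext t
        exact Complex.mk_eq_add_mul_I t y
      rw [h3]
      exact h2
    have hd : HasDerivAt Gammaℝ (deriv Gammaℝ (⟨x, y⟩ : ℂ)) (⟨x, y⟩ : ℂ) :=
      (diff_GR (z := ⟨x, y⟩) hx).hasDerivAt
    have h4 := hd.comp x h1
    rw [mul_one] at h4
    have h5 := hasDerivAt_log_norm h4 (Gammaℝ_ne_zero_of_re_pos (s := ⟨x, y⟩) hx)
    simpa [logDeriv_apply, Function.comp_def] using h5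
  obtain ⟨c, hc, hc2⟩ := exists_hasDerivAt_eq_slope
    (fun t : ℝ => Real.log ‖Gammaℝ (⟨t, y⟩ : ℂ)‖)
    (fun x => (logDeriv Gammaℝ (⟨x, y⟩ : ℂ)).re) (a := 1 / 2) (b := 3 / 2) (by norm_num)
    (fun x hx => (key x (by linarith [hx.1])).continuousAt.continuousWithinAt)
    (fun x hx => key x (by linarith [hx.1]))
  have h6 : Real.log ‖Gammaℝ (⟨3 / 2, y⟩ : ℂ)‖ - Real.log ‖Gammaℝ (⟨1 / 2, y⟩ : ℂ)‖ =
      (logDeriv Gammaℝ (⟨c, y⟩ : ℂ)).re := by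
    rw [hc2]
    norm_num
  rw [h6]
  have h7 := hC ⟨c, y⟩ (by simp; linarith [hc.1]) (by simp; linarith [hc.2]) hy
  refine le_trans ?_ h7
  have h8 := Complex.abs_re_le_norm
    (logDeriv Gammaℝ (⟨c, y⟩ : ℂ) - 1 / 2 * Real.log |(⟨c, y⟩ : ℂ).im|)
  refine le_trans (le_of_eq ?_) h8
  congr 1
  simp

lemma prod_sq (y : ℝ) : (‖Gammaℝ (⟨1 / 2, y⟩ : ℂ)‖ * ‖Gammaℝ (⟨3 / 2, y⟩ : ℂ)‖) ^ 2 =
    2 / Real.cosh (Real.pi * y) := by
  have hpi := Real.pi_pos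
  have e1 : (⟨1 / 2, y⟩ : ℂ) / 2 = ((1 / 4 : ℝ) : ℂ) + ((y / 2 : ℝ) : ℂ) * I := by
    apply Complex.ext <;> simp <;> norm_num
  have e2 : (⟨3 / 2, y⟩ : ℂ) / 2 = 1 - (starRingEnd ℂ) ((⟨1 / 2, y⟩ : ℂ) / 2) := by
    rw [e1, map_add, map_mul, Complex.conj_ofReal, Complex.conj_ofReal, Complex.conj_I]
    apply Complex.ext
    · simp
      norm_num
    · simp
  have e3 : ‖Gamma ((⟨3 / 2, y⟩ : ℂ) / 2)‖ = ‖Gamma (1 - (⟨1 / 2, y⟩ : ℂ) / 2)‖ := by
    rw [e2]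
    have : (1 : ℂ) - (starRingEnd ℂ) ((⟨1 / 2, y⟩ : ℂ) / 2) =
        (starRingEnd ℂ) (1 - (⟨1 / 2, y⟩ : ℂ) / 2) := by
      rw [map_sub, map_one]
    rw [this, Complex.Gamma_conj, Complex.norm_conj]
  have n1 : ‖Gammaℝ (⟨1 / 2, y⟩ : ℂ)‖ =
      Real.pi ^ (-(1 / 4) : ℝ) * ‖Gamma ((⟨1 / 2, y⟩ : ℂ) / 2)‖ := by
    rw [Gammaℝ_def, norm_mul, Complex.norm_cpow_eq_rpow_re_of_pos hpi]
    congr 2
    simp
    norm_num
  have n2 : ‖Gammaℝ (⟨3 / 2, y⟩ : ℂ)‖ =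
      Real.pi ^ (-(3 / 4) : ℝ) * ‖Gamma ((⟨3 / 2, y⟩ : ℂ) / 2)‖ := by
    rw [Gammaℝ_def, norm_mul, Complex.norm_cpow_eq_rpow_re_of_pos hpi]
    congr 2
    simp
    norm_num
  have n3 : Real.pi ^ (-(1 / 4) : ℝ) * Real.pi ^ (-(3 / 4) : ℝ) = Real.pi⁻¹ := by
    rw [← Real.rpow_add hpi, ← Real.rpow_neg_one]
    norm_num
  have g1 := Complex.Gamma_mul_Gamma_one_sub ((⟨1 / 2, y⟩ : ℂ) / 2)
  have g2 : ‖Gamma ((⟨1 / 2, y⟩ : ℂ) / 2)‖ * ‖Gamma (1 - (⟨1 / 2, y⟩ : ℂ) / 2)‖ =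
      Real.pi / ‖Complex.sin (Real.pi * ((⟨1 / 2, y⟩ : ℂ) / 2))‖ := by
    rw [← norm_mul, g1, norm_div]
    congr 1
    rw [Complex.norm_real, Real.norm_eq_abs, abs_of_pos hpi]
  have s1 : ‖Complex.sin (Real.pi * ((⟨1 / 2, y⟩ : ℂ) / 2))‖ ^ 2 =
      Real.cosh (Real.pi * y) / 2 := by
    have : (Real.pi : ℂ) * ((⟨1 / 2, y⟩ : ℂ) / 2) =
        ((Real.pi / 4 : ℝ) : ℂ) + ((Real.pi * y / 2 : ℝ) : ℂ) * I := by
      rw [e1]
      push_cast
      ring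
    rw [this, Complex.sin_add_mul_I, ← Complex.ofReal_sin, ← Complex.ofReal_cos,
      ← Complex.ofReal_cosh, ← Complex.ofReal_sinh, ← Complex.normSq_eq_norm_sq,
      Complex.normSq_apply]
    have hre : ((Real.sin (Real.pi / 4) : ℂ) * (Real.cosh (Real.pi * y / 2) : ℂ) +
        (Real.cos (Real.pi / 4) : ℂ) * (Real.sinh (Real.pi * y / 2) : ℂ) * I).re =
        Real.sin (Real.pi / 4) * Real.cosh (Real.pi * y / 2) := by
      rw [← Complex.ofReal_mul, ← Complex.ofReal_mul]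
      simp only [Complex.add_re, Complex.mul_I_re, Complex.ofReal_re, Complex.ofReal_im]
      ring
    have him : ((Real.sin (Real.pi / 4) : ℂ) * (Real.cosh (Real.pi * y / 2) : ℂ) +
        (Real.cos (Real.pi / 4) : ℂ) * (Real.sinh (Real.pi * y / 2) : ℂ) * I).im =
        Real.cos (Real.pi / 4) * Real.sinh (Real.pi * y / 2) := by
      rw [← Complex.ofReal_mul, ← Complex.ofReal_mul]
      simp only [Complex.add_im, Complex.mul_I_im, Complex.ofReal_re, Complex.ofReal_im]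
      ring
    rw [hre, him, Real.sin_pi_div_four, Real.cos_pi_div_four]
    have h2 : Real.cosh (Real.pi * y) = Real.cosh (Real.pi * y / 2) ^ 2 +
        Real.sinh (Real.pi * y / 2) ^ 2 := by
      rw [← Real.cosh_two_mul]
      congr 1
      ring
    rw [h2]
    have h3 : Real.sqrt 2 * Real.sqrt 2 = 2 := Real.mul_self_sqrt (by norm_num)
    nlinarith [h3]
  rw [n1, n2, e3]
  have : Real.pi ^ (-(1 / 4) : ℝ) * ‖Gamma ((⟨1 / 2, y⟩ : ℂ) / 2)‖ *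
      (Real.pi ^ (-(3 / 4) : ℝ) * ‖Gamma (1 - (⟨1 / 2, y⟩ : ℂ) / 2)‖) =
      (Real.pi ^ (-(1 / 4) : ℝ) * Real.pi ^ (-(3 / 4) : ℝ)) *
      (‖Gamma ((⟨1 / 2, y⟩ : ℂ) / 2)‖ * ‖Gamma (1 - (⟨1 / 2, y⟩ : ℂ) / 2)‖) := by ring
  rw [this, n3, g2]
  have hc := Real.cosh_pos (Real.pi * y)
  have : Real.pi⁻¹ * (Real.pi / ‖Complex.sin (Real.pi * ((⟨1 / 2, y⟩ : ℂ) / 2))‖) =
      ‖Complex.sin (Real.pi * ((⟨1 / 2, y⟩ : ℂ) / 2))‖⁻¹ := by
    field_simp
  rw [this, inv_pow, s1]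
  field_simp

lemma cosh_log (y : ℝ) : 0 ≤ Real.pi * |y| - Real.log (Real.cosh (Real.pi * y)) ∧
    Real.pi * |y| - Real.log (Real.cosh (Real.pi * y)) ≤ Real.log 2 := by
  have hpi := Real.pi_pos
  have h1 : Real.cosh (Real.pi * y) = Real.cosh (Real.pi * |y|) := by
    rw [← Real.cosh_abs (Real.pi * y), abs_mul, abs_of_pos hpi]
  rw [h1]
  set t := Real.pi * |y| with ht
  have ht0 : 0 ≤ t := by positivity
  have hc := Real.cosh_pos t
  have h2 : Real.cosh t ≤ Real.exp t := by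
    rw [Real.cosh_eq]
    have : Real.exp (-t) ≤ Real.exp t := Real.exp_le_exp.mpr (by linarith)
    linarith
  have h3 : Real.exp t / 2 ≤ Real.cosh t := by
    rw [Real.cosh_eq]
    have := Real.exp_pos (-t)
    linarith
  constructor
  · have := Real.log_le_log hc h2
    rw [Real.log_exp] at this
    linarith
  · have := Real.log_le_log (by positivity) h3
    rw [Real.log_div (Real.exp_pos t).ne' (by norm_num), Real.log_exp] at this
    linarith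

lemma norm_half_pos (y : ℝ) : 0 < ‖(⟨0 - 1 / 2, y⟩ : ℂ)‖ := by
  rw [norm_pos_iff]
  intro h
  have := congrArg Complex.re h
  norm_num at this

lemma gam_pos (y : ℝ) : 0 < ‖Gammaℝ (⟨1 / 2 + 0, y⟩ : ℂ)‖ := by
  rw [norm_pos_iff]
  exact Gammaℝ_ne_zero_of_re_pos (by norm_num)

lemma wg_pos (y : ℝ) : 0 < Wg 0 y := mul_pos (norm_half_pos y) (gam_pos y)

lemma large : ∃ C : ℝ, 0 ≤ C ∧ ∀ y : ℝ, 1 ≤ |y| → |Real.log (Wg 0 y) - ph y| ≤ C := by
  obtain ⟨C, hC0, hC⟩ := quot_bound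
  refine ⟨C / 2 + 3 * Real.log 2, by positivity, fun y hy => ?_⟩
  have h1 := hC y hy
  have hg1 := gam_pos y
  rw [add_zero] at hg1
  have hg3 : 0 < ‖Gammaℝ (⟨3 / 2, y⟩ : ℂ)‖ := by
    rw [norm_pos_iff]
    exact Gammaℝ_ne_zero_of_re_pos (by norm_num)
  have hp := congrArg Real.log (prod_sq y)
  rw [Real.log_pow, Real.log_mul hg1.ne' hg3.ne', Real.log_div (by norm_num)
    (Real.cosh_pos _).ne'] at hp
  push_cast at hp
  have hcosh := cosh_log y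
  have hW : Real.log (Wg 0 y) = Real.log ‖(⟨0 - 1 / 2, y⟩ : ℂ)‖ +
      Real.log ‖Gammaℝ (⟨1 / 2, y⟩ : ℂ)‖ := by
    have := Real.log_mul (norm_half_pos y).ne' (gam_pos y).ne'
    rw [add_zero] at this
    simpa [Wg] using this
  have hlog2 : 0 < Real.log 2 := Real.log_pos (by norm_num)
  have hy0 : 0 < |y| := by linarith
  have hn : Real.log |y| ≤ Real.log ‖(⟨0 - 1 / 2, y⟩ : ℂ)‖ ∧
      Real.log ‖(⟨0 - 1 / 2, y⟩ : ℂ)‖ ≤ Real.log |y| + Real.log 2 := by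
    constructor
    · apply Real.log_le_log hy0
      exact Complex.abs_im_le_norm (⟨0 - 1 / 2, y⟩ : ℂ)
    · rw [← Real.log_mul hy0.ne' (by norm_num)]
      apply Real.log_le_log (norm_half_pos y)
      have := Complex.norm_le_abs_re_add_abs_im (⟨0 - 1 / 2, y⟩ : ℂ)
      have h5 : |(⟨0 - 1 / 2, y⟩ : ℂ).re| = 1 / 2 := by norm_num [abs_of_neg]
      have h6 : |(⟨0 - 1 / 2, y⟩ : ℂ).im| = |y| := rfl
      rw [h5, h6] at this
      linarith
  have hl : Real.log |y| ≤ Real.log (1 + |y|) ∧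
      Real.log (1 + |y|) ≤ Real.log |y| + Real.log 2 := by
    constructor
    · exact Real.log_le_log hy0 (by linarith)
    · rw [← Real.log_mul hy0.ne' (by norm_num)]
      exact Real.log_le_log (by linarith) (by linarith)
  rw [hW, ph]
  rw [abs_le] at h1 ⊢
  obtain ⟨h1a, h1b⟩ := h1
  obtain ⟨hca, hcb⟩ := hcosh
  obtain ⟨hna, hnb⟩ := hn
  obtain ⟨hla, hlb⟩ := hl
  constructor
  · nlinarith [h1a, h1b, hca, hcb, hna, hnb, hla, hlb]
  · nlinarith [h1a, h1b, hca, hcb, hna, hnb, hla, hlb]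

lemma cont : Continuous fun y : ℝ => Real.log (Wg 0 y) - ph y := by
  have hv : ∀ a : ℝ, Continuous fun y : ℝ => (⟨a, y⟩ : ℂ) := by
    intro a
    have : (fun y : ℝ => (⟨a, y⟩ : ℂ)) = fun y : ℝ => (a : ℂ) + (y : ℂ) * I := by
      funext y
      exact Complex.mk_eq_add_mul_I a y
    rw [this]
    fun_prop
  apply Continuous.sub
  · apply Continuous.log _ (fun y => (wg_pos y).ne')
    apply Continuous.mul
    · exact (hv _).norm
    · apply Continuous.norm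
      rw [continuous_iff_continuousAt]
      intro y
      exact ContinuousAt.comp (f := fun y : ℝ => (⟨1 / 2 + 0, y⟩ : ℂ)) (g := Gammaℝ)
        (diff_GR (z := ⟨1 / 2 + 0, y⟩) (by norm_num)).continuousAt (hv _).continuousAt
  · unfold ph
    apply Continuous.add
    · fun_prop
    · apply Continuous.mul continuous_const
      apply Continuous.log (by fun_prop)
      intro y
      positivity

theorem stir : U_STIR := by
  obtain ⟨C1, h10, h1⟩ := large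
  obtain ⟨C2, h2⟩ := (isCompact_Icc (a := (-1 : ℝ)) (b := 1)).exists_bound_of_continuousOn
    cont.continuousOn
  refine ⟨C1 + |C2| + 1, by positivity, fun y => ⟨wg_pos y, ?_⟩⟩
  rcases le_total 1 |y| with hy | hy
  · have := h1 y hy
    have := abs_nonneg C2
    linarith
  · have := h2 y (abs_le.mp hy)
    rw [Real.norm_eq_abs] at this
    have := le_abs_self C2
    linarith

end Pool.Agent.W831.WM
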